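import Mathlib

set_option autoImplicit false

/-!
Affine Hjelmslev planes (problem MP_43980c_co).  An incidence structure is given by a type `P` of
points, a type `B` of blocks and an incidence relation `I : P → B → Prop`.
-/

namespace Pool.Agent.H57.AH

variable {P B : Type}

/-- `[x,y] > 1`: at least two blocks are incident with both `x` and `y`. -/
def ManyBlocks (I : P → B → Prop) (x y : P) : Prop :=
  ∃ b c : B, b ≠ c ∧ (I x b ∧ I y b) ∧ (I x c ∧ I y c)

/-- `b ∼_a c`: for every point `x` on one of the two blocks there is a point `y` on the other one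
with `[x,y] > 1`. -/
def BlockNbr (I : P → B → Prop) (b c : B) : Prop :=
  (∀ x, I x b → ∃ y, I y c ∧ ManyBlocks I x y) ∧ (∀ x, I x c → ∃ y, I y b ∧ ManyBlocks I x y)

/-- Ordinary affine planes: two distinct points are on exactly one common block, for a point not on
a block there is exactly one block through the point that does not meet the block, every block has
at least two points, and there are three points that are not on one block. -/
structure IsAffinePlane (I : P → B → Prop) : Prop where
  join : ∀ x y : P, x ≠ y → ∃! b : B, I x b ∧ I y b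
  playfair : ∀ (x : P) (b : B), ¬ I x b → ∃! c : B, I x c ∧ ∀ y : P, ¬ (I y b ∧ I y c)
  two_points : ∀ b : B, ∃ x y : P, x ≠ y ∧ I x b ∧ I y b
  triangle : ∃ x y z : P, x ≠ y ∧ y ≠ z ∧ x ≠ z ∧ ¬ ∃ b : B, I x b ∧ I y b ∧ I z b

/-- Affine Hjelmslev planes with parallelism `par` (conditions 1-4 of the problem). -/
structure IsAHPlane (I : P → B → Prop) (par : B → B → Prop) : Prop where
  /-- condition 1: `[x,y] ≥ 1` -/
  join : ∀ x y : P, ∃ b : B, I x b ∧ I y b
  /-- the parallelism is an equivalence relation -/
  par_equiv : Equivalence par
  /-- condition 2: unique parallels -/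
  par_unique : ∀ (p : P) (b : B), ∃! c : B, I p c ∧ par b c
  /-- condition 3: distinct neighbouring blocks do not have exactly one common point -/
  nbr_meet : ∀ b c : B, b ≠ c → BlockNbr I b c → ¬ ∃! x : P, I x b ∧ I x c
  /-- condition 4: there is an epimorphism onto an ordinary affine plane whose fibres are the classes of
  `[x,y] > 1` on points and of `∼_a` on blocks (surjective on points, blocks and incident pairs) -/
  epi : ∃ (P' B' : Type) (I' : P' → B' → Prop) (f : P → P') (g : B → B'),
    IsAffinePlane I' ∧ Function.Surjective f ∧ Function.Surjective g ∧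
    (∀ x b, I x b → I' (f x) (g b)) ∧
    (∀ x' b', I' x' b' → ∃ x b, f x = x' ∧ g b = b' ∧ I x b) ∧
    (∀ x y, f x = f y ↔ ManyBlocks I x y) ∧
    (∀ b c, g b = g c ↔ BlockNbr I b c)

/-- Automorphisms: a bijection of the points and a bijection of the blocks that preserve incidence
in both directions. -/
structure Aut (I : P → B → Prop) where
  pt : P ≃ P
  bl : B ≃ B
  inc : ∀ x b, I (pt x) (bl b) ↔ I x b

/-- Composition of automorphisms: first `σ`, then `τ`. -/
def Aut.comp {I : P → B → Prop} (σ τ : Aut I) : Aut I where
  pt := σ.pt.trans τ.pt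
  bl := σ.bl.trans τ.bl
  inc x b := by simp [τ.inc, σ.inc]

/-- An automorphism is a translation if it fixes every block of some parallel class and is either
the identity or fixes no point. -/
def IsTranslation {I : P → B → Prop} (par : B → B → Prop) (τ : Aut I) : Prop :=
  (∃ b₀ : B, ∀ b : B, par b₀ b → τ.bl b = b) ∧
    (((∀ x, τ.pt x = x) ∧ (∀ b, τ.bl b = b)) ∨ ∀ x, τ.pt x ≠ x)

/-- An automorphism is a dilatation if it maps every block to a parallel one. -/
def IsDilatation {I : P → B → Prop} (par : B → B → Prop) (τ : Aut I) : Prop :=
  ∀ b : B, par b (τ.bl b)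

end Pool.Agent.H57.AH
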