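import Mathlib

set_option autoImplicit false

/-!
Weak rainbow saturation (problem MP_e47ea7_co).  An edge-coloured graph on the vertex set `Fin n` is
a pair `(G, χ)` of a simple graph `G` and a colour function `χ`; only the colours of edges of `G`
matter.
-/

namespace Pool.Agent.H57.RW

/-- `f` is a rainbow copy of `H` in `(G, χ)`: an injective map of the vertices that sends edges of
`H` to edges of `G`, distinct edges of `H` being sent to edges with distinct colours. -/
structure IsRainbowCopy {V : Type} {n : ℕ} (H : SimpleGraph V) (G : SimpleGraph (Fin n))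
    (χ : Sym2 (Fin n) → ℕ) (f : V → Fin n) : Prop where
  inj : Function.Injective f
  adj : ∀ u v, H.Adj u v → G.Adj (f u) (f v)
  rainbow : ∀ x ∈ H.edgeSet, ∀ y ∈ H.edgeSet, x ≠ y → χ (x.map f) ≠ χ (y.map f)

/-- `(G, χ)` is rainbow `H`-free. -/
def RainbowFree {V : Type} {n : ℕ} (H : SimpleGraph V) (G : SimpleGraph (Fin n))
    (χ : Sym2 (Fin n) → ℕ) : Prop :=
  ¬ ∃ f : V → Fin n, IsRainbowCopy H G χ f

/-- `(G, χ)` is weakly `H`-rainbow saturated: there is an ordering `e 0, …, e (m-1)` of the edges of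
the complement of `G` such that for all pairwise distinct colours `c 0, …, c (m-1)` and every `i`,
the edge `e i` lies in a rainbow copy of `H` in the graph obtained from `(G, χ)` by adding the edges
`e j` with `j ≤ i`, where `e j` gets the colour `c j`. -/
def WeaklySat {V : Type} {n : ℕ} (H : SimpleGraph V) (G : SimpleGraph (Fin n))
    (χ : Sym2 (Fin n) → ℕ) : Prop :=
  ∃ (m : ℕ) (e : Fin m → Sym2 (Fin n)), Function.Injective e ∧ Set.range e = Gᶜ.edgeSet ∧
    ∀ c : Fin m → ℕ, Function.Injective c → ∀ i : Fin m,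
      ∃ f : V → Fin n,
        IsRainbowCopy H (G ⊔ SimpleGraph.fromEdgeSet {x | ∃ j ≤ i, e j = x})
          (Function.extend e c χ) f ∧
        ∃ x ∈ H.edgeSet, x.map f = e i

/-- The weak rainbow saturation number. -/
noncomputable def rwsat {V : Type} (n : ℕ) (H : SimpleGraph V) : ℕ∞ :=
  ⨅ (G : SimpleGraph (Fin n)) (χ : Sym2 (Fin n) → ℕ) (_ : WeaklySat H G χ), G.edgeSet.encard

/-- The same minimum taken over the rainbow `H`-free pairs `(G, χ)` only (`⊤` if there are none). -/
noncomputable def rwsatStar {V : Type} (n : ℕ) (H : SimpleGraph V) : ℕ∞ :=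
  ⨅ (G : SimpleGraph (Fin n)) (χ : Sym2 (Fin n) → ℕ) (_ : WeaklySat H G χ)
    (_ : RainbowFree H G χ), G.edgeSet.encard

/-- The matching `r K₂` with `r` edges, on the vertex set `Fin r × Bool`. -/
def matchingGraph (r : ℕ) : SimpleGraph (Fin r × Bool) where
  Adj p q := p.1 = q.1 ∧ p.2 ≠ q.2
  symm := ⟨fun _ _ h => ⟨h.1.symm, h.2.symm⟩⟩
  loopless := ⟨fun _ h => h.2 rfl⟩

end Pool.Agent.H57.RW
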